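import Pool.Agent.Y36.SG.Quot
import Pool.Agent.Results.MP_b99418_al.DiamOrder

set_option autoImplicit false

/-!
# The diameters of the level quotients of the Grigorchuk group, for all finite generating sets

`G` is the first Grigorchuk group (`Pool/Agent/Results/MP_03d093_al/SphereBall.lean`), `st n` the
stabilizer of the level `n`, `Gq n = G / st n`, `qlen S n` the word length in `Gq n` with respect to
the image of the generating set `S`, and `qdiam S n` the diameter of the Cayley graph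
(`Pool/Agent/Y36/SG/Quot.lean`); `lam ≈ 2.4675` is the positive root of `x³ = x² + 2x + 4`.
-/

namespace Pool.Agent.Results.MP_b99418_al.AllGenerators

open Pool.Agent.Y36.SG Pool.Agent.Results.MP_03d093_al Pool.Agent.H776R2.Grig

theorem upper (S : Set SphereBall.G) (hS : Subgroup.closure S = ⊤) :
    ∃ C : ℝ, 0 < C ∧ ∀ n : ℕ, (qdiam S n : ℝ) ≤ C * lam ^ n := by
  obtain ⟨C, hC, h⟩ := DiamOrder.short_words
  obtain ⟨K, hK, hKb⟩ := exists_lip gens_finite gens_closure hS
  have hK0 : (0 : ℝ) < K := by exact_mod_cast hK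
  have hlam := lam_pos
  refine ⟨K * C, by positivity, fun n => ?_⟩
  have hb : ∀ g : Gq n, qlen S n g ≤ ⌊K * C * lam ^ n⌋₊ := by
    intro g
    obtain ⟨x, hx⟩ := QuotientGroup.mk'_surjective (st n) g
    obtain ⟨w, hw⟩ := SphereBall.exists_word x.2
    obtain ⟨w', hw1, hw2⟩ := h n w
    have h1 : QuotientGroup.mk' (st n) (SphereBall.evG w') = g := by
      rw [← hx, mk_eq_iff]
      intro u hu
      rw [← hw]
      exact (hw2 u hu).symm
    refine Nat.le_floor ?_
    have h2 : qlen S n g ≤ K * w'.length := by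
      rw [← h1]
      refine (wlen_quot_le (st n) hS _).trans ((hKb _).trans (Nat.mul_le_mul_left K ?_))
      rw [← len_eq]
      exact SphereBall.len_le w'
    calc (qlen S n g : ℝ) ≤ ((K * w'.length : ℕ) : ℝ) := by exact_mod_cast h2
      _ = K * (w'.length : ℝ) := by push_cast; rfl
      _ ≤ K * (C * lam ^ n) := by gcongr
      _ = K * C * lam ^ n := by ring
  have h1 : qdiam S n ≤ ⌊K * C * lam ^ n⌋₊ :=
    csSup_le (Set.range_nonempty _) (by rintro _ ⟨g, rfl⟩; exact hb g)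
  exact (Nat.cast_le.2 h1).trans (Nat.floor_le (by positivity))

theorem qlen_le_qdiam (S : Set SphereBall.G) (n : ℕ) (g : Gq n) : qlen S n g ≤ qdiam S n :=
  le_csSup (Set.finite_range _).bddAbove ⟨g, rfl⟩

theorem one_le_qdiam (S : Set SphereBall.G) (hS : Subgroup.closure S = ⊤) (n : ℕ) (hn : 1 ≤ n) :
    1 ≤ qdiam S n := by
  by_contra h
  have h0 : qdiam S n = 0 := by omega
  set g : Gq n := QuotientGroup.mk' (st n) (SphereBall.evG [.A]) with hg
  have h1 : qlen S n g = 0 := by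
    have := qlen_le_qdiam S n g
    omega
  obtain ⟨l, h2, -, h3⟩ := exists_geod (closure_qS (st n) hS) g
  have h4 : l = [] := List.length_eq_zero_iff.1 (h2.trans h1)
  rw [h4, List.prod_nil] at h3
  have h5 : QuotientGroup.mk' (st n) (SphereBall.evG [.A]) = QuotientGroup.mk' (st n) 1 := by
    rw [map_one, h3]
  obtain ⟨m, rfl⟩ := Nat.exists_eq_add_of_le' hn
  have h6 := mk_eq_iff.1 h5 (false :: List.replicate m false) (by simp)
  have h7 : (true :: List.replicate m false : List Bool) = false :: List.replicate m false := h6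
  simp at h7

theorem main (S : Set SphereBall.G) (hf : S.Finite) (hS : Subgroup.closure S = ⊤) :
    ∃ c C : ℝ, 0 < c ∧ 0 < C ∧
      (∀ n : ℕ, 1 ≤ n → c * lam ^ n ≤ (qdiam S n : ℝ) ∧ (qdiam S n : ℝ) ≤ C * lam ^ n) ∧
      ∀ n : ℕ, (Nat.card {g : Gq n // (qlen S n g : ℝ) ≤ c * lam ^ n} : ℝ) ≤
        C * Real.exp (-(c * 2 ^ n)) * Nat.card (Gq n) := by
  obtain ⟨C1, hC1, h1⟩ := upper S hS
  obtain ⟨c2, C2, hc2, hC2, h2⟩ := few_short S hf hS
  have hlam := lam_pos
  have hlam1 : 1 < lam := by linarith [lam_gt]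
  obtain ⟨n0, hn0⟩ := exists_nat_gt (Real.log C2 / c2)
  have key : ∀ n, n0 ≤ n → c2 * lam ^ n ≤ (qdiam S n : ℝ) := by
    intro n hn
    by_contra hlt
    push Not at hlt
    have h3 : Nat.card {g : Gq n // (qlen S n g : ℝ) ≤ c2 * lam ^ n} = Nat.card (Gq n) := by
      refine Nat.card_congr (Equiv.subtypeUnivEquiv fun g => ?_)
      exact le_trans (by exact_mod_cast qlen_le_qdiam S n g) hlt.le
    have h4 := h2 n
    rw [h3] at h4
    have h5 : (0 : ℝ) < Nat.card (Gq n) := by exact_mod_cast Nat.card_pos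
    have h6 : 1 ≤ C2 * Real.exp (-(c2 * 2 ^ n)) := by
      by_contra h7
      push Not at h7
      nlinarith
    have h7 : Real.log C2 < c2 * 2 ^ n := by
      rw [div_lt_iff₀ hc2] at hn0
      have h8 : (n0 : ℝ) ≤ 2 ^ n := by
        have h9 : n0 ≤ 2 ^ n := hn.trans Nat.lt_two_pow_self.le
        exact_mod_cast h9
      nlinarith
    have h8 : C2 * Real.exp (-(c2 * 2 ^ n)) < 1 := by
      have h9 : C2 * Real.exp (-(c2 * 2 ^ n)) = Real.exp (Real.log C2 + -(c2 * 2 ^ n)) := by
        rw [Real.exp_add, Real.exp_log hC2]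
      rw [h9, ← Real.exp_zero]
      exact Real.exp_lt_exp.2 (by linarith)
    linarith
  refine ⟨min c2 (1 / lam ^ n0), max C1 (C2), lt_min hc2 (by positivity), lt_max_of_lt_left hC1,
    fun n hn => ⟨?_, ?_⟩, fun n => ?_⟩
  · rcases Nat.lt_or_ge n n0 with h | h
    · have h3 : (1 : ℝ) ≤ qdiam S n := by exact_mod_cast one_le_qdiam S hS n hn
      refine le_trans ?_ h3
      calc min c2 (1 / lam ^ n0) * lam ^ n ≤ 1 / lam ^ n0 * lam ^ n0 :=
            mul_le_mul (min_le_right _ _) (pow_le_pow_right₀ hlam1.le h.le) (by positivity)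
              (by positivity)
        _ = 1 := by field_simp
    · refine le_trans ?_ (key n h)
      exact mul_le_mul_of_nonneg_right (min_le_left _ _) (by positivity)
  · exact (h1 n).trans (mul_le_mul_of_nonneg_right (le_max_left _ _) (by positivity))
  · have h3 : Nat.card {g : Gq n // (qlen S n g : ℝ) ≤ min c2 (1 / lam ^ n0) * lam ^ n} ≤
        Nat.card {g : Gq n // (qlen S n g : ℝ) ≤ c2 * lam ^ n} := by
      refine Nat.card_le_card_of_injective
        (fun g : {g : Gq n // (qlen S n g : ℝ) ≤ min c2 (1 / lam ^ n0) * lam ^ n} =>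
          (⟨g.1, g.2.trans (mul_le_mul_of_nonneg_right (min_le_left _ _) (by positivity))⟩ :
            {g : Gq n // (qlen S n g : ℝ) ≤ c2 * lam ^ n})) ?_
      intro x y hxy
      exact Subtype.ext (congrArg (fun z : {g : Gq n // (qlen S n g : ℝ) ≤ c2 * lam ^ n} => z.1) hxy)
    calc (Nat.card {g : Gq n // (qlen S n g : ℝ) ≤ min c2 (1 / lam ^ n0) * lam ^ n} : ℝ)
        ≤ Nat.card {g : Gq n // (qlen S n g : ℝ) ≤ c2 * lam ^ n} := by exact_mod_cast h3
      _ ≤ C2 * Real.exp (-(c2 * 2 ^ n)) * Nat.card (Gq n) := h2 n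
      _ ≤ max C1 C2 * Real.exp (-(min c2 (1 / lam ^ n0) * 2 ^ n)) * Nat.card (Gq n) := by
        have h4 : Real.exp (-(c2 * 2 ^ n)) ≤ Real.exp (-(min c2 (1 / lam ^ n0) * 2 ^ n)) := by
          apply Real.exp_le_exp.2
          have h5 : min c2 (1 / lam ^ n0) * 2 ^ n ≤ c2 * 2 ^ n :=
            mul_le_mul_of_nonneg_right (min_le_left _ _) (by positivity)
          linarith
        have h5 : C2 ≤ max C1 C2 := le_max_right _ _
        gcongr

/-- **Theorem.**  (1) Let `S` be a finite generating set of the first Grigorchuk group `G`.  There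
are constants `c, C > 0` such that the diameter of the Cayley graph of `G_n = G / st_G(n)` with
respect to the image of `S` lies between `c lam^n` and `C lam^n` for all `n ≥ 1`, and such that the
proportion of the elements of `G_n` of length at most `c lam^n` is at most `C exp(-c 2^n)` for all
`n`.
(2) For `a, b, c, d` this holds for the diameters `D n` of the problem, and `L n ≤ D n ≤ C L n` for
`n ≥ 2`, where `L 1 = 2, L 2 = 4, L 3 = 8, L (n+3) = L (n+2) + 2 L (n+1) + 4 L n`. -/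
theorem result :
    (0 < lam ∧ lam ^ 3 = lam ^ 2 + 2 * lam + 4) ∧
    (∀ S : Set SphereBall.G, S.Finite → Subgroup.closure S = ⊤ →
      ∃ c C : ℝ, 0 < c ∧ 0 < C ∧
        (∀ n : ℕ, 1 ≤ n → c * lam ^ n ≤ (qdiam S n : ℝ) ∧ (qdiam S n : ℝ) ≤ C * lam ^ n) ∧
        ∀ n : ℕ, (Nat.card {g : Gq n // (qlen S n g : ℝ) ≤ c * lam ^ n} : ℝ) ≤
          C * Real.exp (-(c * 2 ^ n)) * Nat.card (Gq n)) ∧
    ((∃ l : ℝ, 0 < l ∧ l ^ 3 = l ^ 2 + 2 * l + 4 ∧ 2.465 < l ∧ l < 2.47 ∧
      ∃ c C : ℝ, 0 < c ∧ 0 < C ∧ ∀ n : ℕ, 2 ≤ n →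
        c * l ^ n ≤ (ExactLength.D n : ℝ) ∧ (ExactLength.D n : ℝ) ≤ C * l ^ n) ∧
    (∃ C : ℝ, 0 < C ∧ ∀ n : ℕ, 2 ≤ n →
      ExactLength.L n ≤ ExactLength.D n ∧ (ExactLength.D n : ℝ) ≤ C * (ExactLength.L n : ℝ))) :=
  ⟨⟨lam_pos, lam_eq⟩, fun S hf hS => main S hf hS, DiamOrder.result⟩

end Pool.Agent.Results.MP_b99418_al.AllGenerators
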